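import Pool.Agent.Y476.RM.Stm

/-!
# Densities of the coordinate pairs and equality of the conditional laws
-/

set_option autoImplicit false
open MeasureTheory Filter Topology ProbabilityTheory
open scoped ENNReal

namespace Pool.Agent.Y661.HM.Dis

open Pool.Agent.Y476.RM

/-- A measure of a set for a density on the product, as an iterated integral. -/
theorem wd_apply {ν₁ ν₂ : Measure TT} [IsFiniteMeasure ν₁] [IsFiniteMeasure ν₂]
    {f : TT → TT → ℝ≥0∞} (hf : Measurable (Function.uncurry f)) {t : Set (TT × TT)}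
    (ht : MeasurableSet t) :
    ((ν₁.prod ν₂).withDensity (Function.uncurry f)) t
      = ∫⁻ x, (ν₂.withDensity (f x)) (Prod.mk x ⁻¹' t) ∂ν₁ := by
  rw [withDensity_apply _ ht, ← lintegral_indicator ht,
    lintegral_prod _ ((hf.indicator ht).aemeasurable)]
  refine lintegral_congr fun x => ?_
  have hx : MeasurableSet (Prod.mk x ⁻¹' t) := measurable_prodMk_left ht
  rw [withDensity_apply _ hx, ← lintegral_indicator hx]
  refine lintegral_congr fun y => ?_
  rfl

/-- A density with fibre integrals bounded by one. -/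
theorem dens {Q : Measure (TT × TT)} [IsFiniteMeasure Q] {ν₁ ν₂ : Measure TT}
    [IsFiniteMeasure ν₁] [IsFiniteMeasure ν₂] (h1 : Q.map Prod.fst = ν₁)
    (hQ : Q ≪ ν₁.prod ν₂) :
    ∃ f : TT → TT → ℝ≥0∞, Measurable (Function.uncurry f) ∧
      Q = (ν₁.prod ν₂).withDensity (Function.uncurry f) ∧ ∀ x, ∫⁻ y, f x y ∂ν₂ ≤ 1 := by
  set g : TT × TT → ℝ≥0∞ := Q.rnDeriv (ν₁.prod ν₂) with hg
  have hgm : Measurable g := Measure.measurable_rnDeriv _ _
  have hQg : (ν₁.prod ν₂).withDensity g = Q := Measure.withDensity_rnDeriv_eq _ _ hQ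
  have hgm' : Measurable (Function.uncurry fun x y => g (x, y)) := hgm
  set F : TT → ℝ≥0∞ := fun x => ∫⁻ y, g (x, y) ∂ν₂ with hF
  have hFm : Measurable F := hgm.lintegral_prod_right'
  -- the fibre integrals are one almost everywhere
  have hF1 : F =ᵐ[ν₁] fun _ => 1 := by
    refine ae_eq_of_forall_setLIntegral_eq_of_sigmaFinite hFm measurable_const fun s hs _ => ?_
    have e1 := wd_apply (ν₁ := ν₁) (ν₂ := ν₂) hgm' (hs.prod MeasurableSet.univ)
    have e2 : ((ν₁.prod ν₂).withDensity (Function.uncurry fun x y => g (x, y)))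
        (s ×ˢ Set.univ) = ν₁ s := by
      have : (Function.uncurry fun x y => g (x, y)) = g := rfl
      rw [this, hQg, ← h1, Measure.map_apply measurable_fst hs]
      congr 1
      ext p
      simp
    rw [e2] at e1
    rw [setLIntegral_one, e1, ← lintegral_indicator hs]
    refine lintegral_congr fun x => ?_
    by_cases hx : x ∈ s
    · have : Prod.mk x ⁻¹' (s ×ˢ (Set.univ : Set TT)) = Set.univ := by
        ext y; simp [hx]
      rw [this, Set.indicator_of_mem hx, withDensity_apply _ MeasurableSet.univ,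
        Measure.restrict_univ]
    · have : Prod.mk x ⁻¹' (s ×ˢ (Set.univ : Set TT)) = ∅ := by
        ext y; simp [hx]
      rw [this, Set.indicator_of_notMem hx, measure_empty]
  have hA : MeasurableSet {x | F x ≤ 1} := measurableSet_le hFm measurable_const
  refine ⟨fun x y => ({x | F x ≤ 1} ×ˢ (Set.univ : Set TT)).indicator g (x, y), ?_, ?_, ?_⟩
  · exact hgm.indicator (hA.prod MeasurableSet.univ)
  · have e : (Function.uncurry fun x y =>
        ({x | F x ≤ 1} ×ˢ (Set.univ : Set TT)).indicator g (x, y))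
        = ({x | F x ≤ 1} ×ˢ (Set.univ : Set TT)).indicator g := rfl
    rw [e]
    rw [← hQg]
    refine withDensity_congr_ae ?_
    have h2 : ∀ᵐ p ∂(ν₁.prod ν₂), F p.1 = 1 :=
      Measure.quasiMeasurePreserving_fst.ae hF1
    filter_upwards [h2] with p hp
    rw [Set.indicator_of_mem]
    · exact ⟨le_of_eq hp, Set.mem_univ _⟩
  · intro x
    by_cases hx : F x ≤ 1
    · have : (fun y => ({x | F x ≤ 1} ×ˢ (Set.univ : Set TT)).indicator g (x, y))
          = fun y => g (x, y) := by
        funext y
        exact Set.indicator_of_mem (show (x, y) ∈ {x | F x ≤ 1} ×ˢ (Set.univ : Set TT) from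
          ⟨hx, Set.mem_univ _⟩) _
      rw [this]
      exact hx
    · have : (fun y => ({x | F x ≤ 1} ×ˢ (Set.univ : Set TT)).indicator g (x, y))
          = fun y => 0 := by
        funext y
        exact Set.indicator_of_notMem (fun h => hx h.1) _
      rw [this]
      simp

/-- The statement of the job. -/
theorem t : S_DIS := by
  intro P _ hP hP3
  set ν₁ := P.map Prod.fst with hν₁
  set ν₂ := P.map Prod.snd with hν₂
  set ν₃ := P.map zz with hν₃
  have hzz : Measurable zz := by
    unfold zz
    exact (measurable_fst.neg).sub measurable_snd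
  have hΦ : Measurable (fun p : TT × TT => (p.1, zz p)) := measurable_fst.prodMk hzz
  set Q := P.map (fun p : TT × TT => (p.1, zz p)) with hQ
  have : IsFiniteMeasure ν₁ := Measure.isFiniteMeasure_map P _
  have : IsFiniteMeasure ν₂ := Measure.isFiniteMeasure_map P _
  have : IsFiniteMeasure ν₃ := Measure.isFiniteMeasure_map P _
  have : IsFiniteMeasure Q := Measure.isFiniteMeasure_map P _
  have hQ1 : Q.map Prod.fst = ν₁ := by
    rw [hQ, Measure.map_map measurable_fst hΦ]
    rfl
  obtain ⟨f, hfm, hPf, hf1⟩ := dens (Q := P) (ν₁ := ν₁) (ν₂ := ν₂) rfl hP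
  obtain ⟨h, hhm, hQh, hh1⟩ := dens (Q := Q) (ν₁ := ν₁) (ν₂ := ν₃) hQ1 hP3
  refine ⟨f, h, hfm, hhm, hPf, hQh, ?_⟩
  -- kernels
  have hfx : ∀ x, Measurable (f x) := fun x => hfm.comp measurable_prodMk_left
  have hhx : ∀ x, Measurable (h x) := fun x => hhm.comp measurable_prodMk_left
  have hwd : ∀ (ν : Measure TT) [IsFiniteMeasure ν] (g : TT → TT → ℝ≥0∞),
      Measurable (Function.uncurry g) → ∀ t : Set (TT × TT), MeasurableSet t →
      Measurable fun x => (ν.withDensity (g x)) (Prod.mk x ⁻¹' t) := by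
    intro ν _ g hg t ht
    have h1 : Measurable fun x => ∫⁻ y, t.indicator (Function.uncurry g) (x, y) ∂ν :=
      (hg.indicator ht).lintegral_prod_right'
    have h2 : (fun x => (ν.withDensity (g x)) (Prod.mk x ⁻¹' t))
        = fun x => ∫⁻ y, t.indicator (Function.uncurry g) (x, y) ∂ν := by
      funext x
      have hx : MeasurableSet (Prod.mk x ⁻¹' t) := measurable_prodMk_left ht
      rw [withDensity_apply _ hx, ← lintegral_indicator hx]
      rfl
    rw [h2]
    exact h1
  have hrx : ∀ x : TT, Measurable fun y : TT => -x - y := fun x =>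
    measurable_const.sub measurable_id
  let κ : Kernel TT TT := ⟨fun x => (ν₂.withDensity (f x)).map (fun y => -x - y), by
    refine Measure.measurable_of_measurable_coe _ fun s hs => ?_
    have h1 : (fun x => ((ν₂.withDensity (f x)).map (fun y => -x - y)) s)
        = fun x => (ν₂.withDensity (f x)) (Prod.mk x ⁻¹' (zz ⁻¹' s)) := by
      funext x
      rw [Measure.map_apply (hrx x) hs]
      rfl
    rw [h1]
    exact hwd ν₂ f hfm _ (hzz hs)⟩
  let η : Kernel TT TT := ⟨fun x => ν₃.withDensity (h x), by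
    refine Measure.measurable_of_measurable_coe _ fun s hs => ?_
    have h1 : (fun x => (ν₃.withDensity (h x)) s)
        = fun x => (ν₃.withDensity (h x)) (Prod.mk x ⁻¹' (Prod.snd ⁻¹' s)) := by
      funext x
      rfl
    rw [h1]
    exact hwd ν₃ h hhm _ (measurable_snd hs)⟩
  have hκ : ∀ x, κ x = (ν₂.withDensity (f x)).map (fun y => -x - y) := fun x => rfl
  have hη : ∀ x, η x = ν₃.withDensity (h x) := fun x => rfl
  have : IsFiniteKernel κ := ⟨⟨1, ENNReal.one_lt_top, fun x => by
    rw [hκ, Measure.map_apply (hrx x) MeasurableSet.univ, Set.preimage_univ,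
      withDensity_apply _ MeasurableSet.univ, Measure.restrict_univ]
    exact hf1 x⟩⟩
  have : IsFiniteKernel η := ⟨⟨1, ENNReal.one_lt_top, fun x => by
    rw [hη, withDensity_apply _ MeasurableSet.univ, Measure.restrict_univ]
    exact hh1 x⟩⟩
  have hcp : ν₁ ⊗ₘ κ = ν₁ ⊗ₘ η := by
    ext s hs
    rw [Measure.compProd_apply hs, Measure.compProd_apply hs]
    have e1 : ∫⁻ x, η x (Prod.mk x ⁻¹' s) ∂ν₁ = Q s := by
      conv_rhs => rw [hQh]
      rw [wd_apply hhm hs]
      rfl
    have e2 : ∫⁻ x, κ x (Prod.mk x ⁻¹' s) ∂ν₁ = Q s := by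
      rw [hQ, Measure.map_apply hΦ hs]
      conv_rhs => rw [hPf]
      rw [wd_apply hfm (hΦ hs)]
      refine lintegral_congr fun x => ?_
      rw [hκ, Measure.map_apply (hrx x) (measurable_prodMk_left hs)]
      rfl
    rw [e1, e2]
  have h3 := Kernel.ae_eq_of_compProd_eq hcp
  filter_upwards [h3] with x hx
  rw [hκ, hη] at hx
  exact hx

end Pool.Agent.Y661.HM.Dis
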